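import Pool.Agent.LAT.StmtsW

/-!
# Squad LAT, rows WDA and WDB: two's complement digits
-/

set_option autoImplicit false

namespace Pool.Agent.LAT.H58

open Pool.Agent.LAT Pool.Agent.PAR

/-- the natural number with the digits `b 0, …, b (n - 1)` -/
def nb (b : ℕ → Bool) (n : ℕ) : ℕ := ∑ i ∈ Finset.range n, if b i = true then 2 ^ i else 0

theorem nb_succ (b : ℕ → Bool) (n : ℕ) :
    nb b (n + 1) = nb b n + if b n = true then 2 ^ n else 0 := Finset.sum_range_succ _ _

theorem nb_lt (b : ℕ → Bool) (n : ℕ) : nb b n < 2 ^ n := by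
  induction n with
  | zero => simp [nb]
  | succ n ih =>
    rw [nb_succ, pow_succ]
    split_ifs <;> omega

theorem nb_testBit (b : ℕ → Bool) (n i : ℕ) (h : i < n) : (nb b n).testBit i = b i := by
  induction n with
  | zero => omega
  | succ n ih =>
    rw [nb_succ]
    by_cases hb : b n = true
    · rw [if_pos hb, add_comm]
      rcases Nat.lt_succ_iff_lt_or_eq.1 h with h1 | h1
      · rw [Nat.testBit_two_pow_add_gt h1, ih h1]
      · subst h1
        rw [Nat.testBit_two_pow_add_eq, Nat.testBit_lt_two_pow (nb_lt b i), hb]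
        rfl
    · rw [if_neg hb, add_zero]
      rcases Nat.lt_succ_iff_lt_or_eq.1 h with h1 | h1
      · exact ih h1
      · subst h1
        rw [Nat.testBit_lt_two_pow (nb_lt b i)]
        simpa using hb

theorem nb_self (k n : ℕ) (h : k < 2 ^ n) : nb (fun i => k.testBit i) n = k := by
  apply Nat.eq_of_testBit_eq
  intro i
  by_cases hi : i < n
  · exact nb_testBit _ n i hi
  · have h1 : 2 ^ n ≤ 2 ^ i := Nat.pow_le_pow_right (by norm_num) (by omega)
    rw [Nat.testBit_lt_two_pow (lt_of_lt_of_le (nb_lt _ n) h1),
      Nat.testBit_lt_two_pow (lt_of_lt_of_le h h1)]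

theorem nb_congr {b c : ℕ → Bool} {n : ℕ} (h : ∀ i < n, b i = c i) : nb b n = nb c n := by
  unfold nb
  refine Finset.sum_congr rfl fun i hi => ?_
  rw [h i (Finset.mem_range.1 hi)]

theorem ival_eq (u : Word) (w : ℕ) (hu : u.length = w + 1) :
    ival u = (nb (fun i => u.getD i false) w : ℤ) - if u.getD w false = true then 2 ^ w else 0 := by
  unfold ival
  rw [hu]
  have h1 : (∑ i ∈ Finset.range (w + 1), if u.getD i false = true then (2 : ℤ) ^ i else 0) =
      ((nb (fun i => u.getD i false) (w + 1) : ℕ) : ℤ) := by
    unfold nb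
    push_cast
    rfl
  rw [h1, nb_succ]
  simp only [Nat.add_sub_cancel]
  push_cast
  split_ifs <;> ring

theorem length_bits (w : ℕ) (z : ℤ) : (bits w z).length = w := by
  simp [bits]

theorem getD_bits (w : ℕ) (z : ℤ) (i : ℕ) (h : i < w) : (bits w z).getD i false = z.testBit i := by
  unfold bits
  rw [List.getD_eq_getElem?_getD, List.getElem?_map, List.getElem?_range h]
  rfl

/-- Row WDA. -/
theorem wda : WdaStmt := by
  intro w z h1 h2
  rw [ival_eq _ w (length_bits _ _), getD_bits _ _ w (by omega)]
  have e1 : nb (fun i => (bits (w + 1) z).getD i false) w = nb (fun i => z.testBit i) w :=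
    nb_congr fun i hi => getD_bits _ _ i (by omega)
  rw [e1]
  cases z with
  | ofNat k =>
    have hk : k < 2 ^ w := by
      have h3 : (k : ℤ) < 2 ^ w := h2
      exact_mod_cast h3
    have e2 : nb (fun i => (Int.ofNat k).testBit i) w = k := nb_self k w hk
    have e3 : (Int.ofNat k).testBit w = false := Nat.testBit_lt_two_pow hk
    rw [e2, e3]
    simp
  | negSucc k =>
    have hk : k < 2 ^ w := by
      have h3 : -(2 ^ w : ℤ) ≤ -(k + 1 : ℤ) := by
        rw [Int.negSucc_eq] at h1
        exact h1
      have h4 : (k : ℤ) < 2 ^ w := by linarith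
      exact_mod_cast h4
    have e2 : nb (fun i => (Int.negSucc k).testBit i) w = 2 ^ w - (k + 1) := by
      rw [← nb_self (2 ^ w - (k + 1)) w (by omega)]
      refine nb_congr fun i hi => ?_
      rw [Nat.testBit_two_pow_sub_succ hk]
      simp only [hi, decide_true, Bool.true_and]
      rfl
    have e3 : (Int.negSucc k).testBit w = true := by
      show (!(k.testBit w)) = true
      rw [Nat.testBit_lt_two_pow hk]
      rfl
    rw [e2, e3, if_pos rfl, Int.negSucc_eq, Nat.cast_sub (by omega)]
    push_cast
    ring

/-- Row WDB. -/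
theorem wdb : WdbStmt := by
  intro u w hu
  set S := nb (fun i => u.getD i false) w with hS
  have hSlt : S < 2 ^ w := nb_lt _ _
  have hSz : ((S : ℕ) : ℤ) < 2 ^ w := by exact_mod_cast hSlt
  have hS0 : (0 : ℤ) ≤ ((S : ℕ) : ℤ) := Int.natCast_nonneg _
  have hpow : (0 : ℤ) < 2 ^ w := by positivity
  have hv : ival u = (S : ℤ) - if u.getD w false = true then 2 ^ w else 0 := ival_eq u w hu
  refine ⟨?_, ?_, ?_⟩
  · have hbit : ∀ i < w + 1, (ival u).testBit i = u.getD i false := by
      intro i hi
      by_cases hb : u.getD w false = true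
      · rw [if_pos hb] at hv
        have hneg : ival u = Int.negSucc (2 ^ w - (S + 1)) := by
          rw [hv, Int.negSucc_eq, Nat.cast_sub (by omega)]
          push_cast
          ring
        rw [hneg]
        show (!((2 ^ w - (S + 1)).testBit i)) = _
        rw [Nat.testBit_two_pow_sub_succ hSlt]
        rcases Nat.lt_succ_iff_lt_or_eq.1 hi with h1 | h1
        · simp only [h1, decide_true, Bool.true_and, Bool.not_not]
          exact nb_testBit _ w i h1
        · subst h1
          rw [hb]
          simp
      · rw [if_neg hb, sub_zero] at hv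
        rw [hv]
        show S.testBit i = _
        rcases Nat.lt_succ_iff_lt_or_eq.1 hi with h1 | h1
        · exact nb_testBit _ w i h1
        · subst h1
          rw [Nat.testBit_lt_two_pow hSlt]
          simpa using hb
    apply List.ext_getElem
    · rw [length_bits, hu]
    · intro i h1 h2
      rw [length_bits] at h1
      have h3 := getD_bits (w + 1) (ival u) i h1
      rw [hbit i h1] at h3
      rw [List.getD_eq_getElem _ _ (by rw [length_bits]; exact h1), List.getD_eq_getElem _ _ h2] at h3
      exact h3
  · rw [hv]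
    split_ifs <;> linarith
  · rw [hv]
    split_ifs <;> linarith

end Pool.Agent.LAT.H58
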