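import Pool.Agent.LAT.StmtsM

/-!
# Squad LAT, row HND: the Gram determinant of the row span of a Hermite normal form
-/

set_option autoImplicit false

namespace Pool.Agent.LAT.H58

open Matrix Pool.Agent.LAT

/-- Row HND. -/
theorem hnd (hB : BasStmt) (hM : HnmStmt) : HndStmt := by
  classical
  intro m B hH
  obtain ⟨-, hind, hgen⟩ := hM m B hH
  have hzero : ∀ k, B k k = 0 → B k = 0 := fun k hk => funext fun i => hH.zero k hk i
  -- linear independence
  have hli : LinearIndependent ℤ (fun i : {k // B k k ≠ 0} => B i) := by
    rw [Fintype.linearIndependent_iff]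
    intro g hg i
    set x : Fin m → ℤ := fun k => if h : B k k ≠ 0 then g ⟨k, h⟩ else 0 with hx
    have hx0 : ∀ k, B k k = 0 → x k = 0 := by
      intro k hk
      simp only [hx]
      rw [dif_neg (by simpa using hk)]
    have hsum : ∑ k, x k • B k = 0 := by
      rw [← Fintype.sum_subtype_add_sum_subtype (fun k => B k k ≠ 0) (fun k => x k • B k)]
      have h1 : ∑ i : {k // B k k ≠ 0}, x i • B i = 0 := by
        rw [← hg]
        refine Finset.sum_congr rfl fun i _ => ?_
        have : x i = g i := by
          simp only [hx]
          rw [dif_pos i.2]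
        rw [this]
      have h2 : ∑ i : {k // ¬ B k k ≠ 0}, x i • B i = 0 := by
        refine Finset.sum_eq_zero fun i _ => ?_
        have h3 : B i i = 0 := by
          have := i.2
          simpa using this
        rw [hx0 _ h3, zero_smul]
      rw [h1, h2, add_zero]
    have h0 := hind x hx0 hsum
    have h1 := congrFun h0 i
    simp only [hx] at h1
    rw [dif_pos i.2] at h1
    simpa using h1
  -- the span
  have hspan : Submodule.span ℤ (Set.range fun i : {k // B k k ≠ 0} => B i) = rows B := by
    apply le_antisymm
    · rw [Submodule.span_le]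
      rintro _ ⟨i, rfl⟩
      exact Submodule.subset_span ⟨i, rfl⟩
    · show Submodule.span ℤ _ ≤ _
      rw [Submodule.span_le]
      rintro _ ⟨k, rfl⟩
      by_cases hk : B k k = 0
      · show B k ∈ _
        rw [hzero k hk]
        exact Submodule.zero_mem _
      · exact Submodule.subset_span ⟨⟨k, hk⟩, rfl⟩
  let b : Module.Basis {k // B k k ≠ 0} ℤ (rows B) :=
    (Module.Basis.span hli).map (LinearEquiv.ofEq _ _ hspan)
  have hb : ∀ i, ((b i : rows B) : Fin m → ℤ) = B i := by
    intro i
    show ((LinearEquiv.ofEq _ _ hspan (Module.Basis.span hli i) : rows B) : Fin m → ℤ) = B i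
    rw [LinearEquiv.coe_ofEq_apply, Module.Basis.span_apply]
  constructor
  · rw [← hB m (rows B) _ b]
    rw [Matrix.twoBlockTriangular_det (GG B) (fun k => B k k ≠ 0)]
    · have h1 : toSquareBlockProp (GG B) (fun k => B k k ≠ 0) =
          gram fun i => ((b i : rows B) : Fin m → ℤ) := by
        ext i j
        have hEE : EE B (i : Fin m) (j : Fin m) = 0 := by
          by_cases hij : (i : Fin m) = j
          · rw [hij, EE, Matrix.diagonal_apply_eq, if_neg j.2]
          · rw [EE, Matrix.diagonal_apply_ne _ hij]
        rw [toSquareBlockProp_def, Matrix.of_apply, GG, Matrix.add_apply, hEE, add_zero]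
        show _ = ((b i : rows B) : Fin m → ℤ) ⬝ᵥ ((b j : rows B) : Fin m → ℤ)
        rw [hb, hb]
        rfl
      have h2 : toSquareBlockProp (GG B) (fun k => ¬ B k k ≠ 0) = 1 := by
        ext i j
        have hi : B i i = 0 := by
          have := i.2
          simpa using this
        have hBB : (B * Bᵀ) (i : Fin m) (j : Fin m) = 0 := by
          rw [Matrix.mul_apply]
          refine Finset.sum_eq_zero fun k _ => ?_
          rw [hH.zero _ hi k, zero_mul]
        rw [toSquareBlockProp_def, Matrix.of_apply, GG, Matrix.add_apply, hBB, zero_add, EE]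
        by_cases hij : i = j
        · rw [hij, Matrix.diagonal_apply_eq, Matrix.one_apply_eq]
          have hj : B j j = 0 := by
            have := j.2
            simpa using this
          rw [if_pos hj]
        · rw [Matrix.one_apply_ne hij, Matrix.diagonal_apply_ne]
          exact fun h => hij (Subtype.ext h)
      rw [h1, h2, Matrix.det_one, mul_one]
    · intro i hi j hj
      have hi0 : B i i = 0 := by simpa using hi
      rw [GG, Matrix.add_apply, Matrix.mul_apply]
      have h1 : ∑ k, B i k * Bᵀ k j = 0 := by
        refine Finset.sum_eq_zero fun k _ => ?_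
        rw [hH.zero _ hi0 k, zero_mul]
      rw [h1, zero_add, EE, Matrix.diagonal_apply_ne]
      rintro rfl
      exact hj hi0
  · show Module.finrank ℤ (rows B) = _
    rw [Module.finrank_eq_card_basis b, piv, Fintype.card_subtype]

end Pool.Agent.LAT.H58
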