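import Pool.Agent.LAT.StmtsM

/-!
# Squad LAT, row SUB: submodularity of the covolume, modularity of the rank
-/

set_option autoImplicit false

namespace Pool.Agent.LAT.H58

open Matrix Pool.Agent.LAT

theorem sub_aux (hF : FisStmt) (hT : TorStmt) (hP : PosStmt) (m : ℕ)
    (M N : Submodule ℤ (Fin m → ℤ)) (s : Finset (Fin m → ℤ)) :
    (∀ v ∈ s, v ∈ M) →
    gd (N ⊔ Submodule.span ℤ (s : Set (Fin m → ℤ))) * gd (M ⊓ N) ≤
        gd ((M ⊓ N) ⊔ Submodule.span ℤ (s : Set (Fin m → ℤ))) * gd N ∧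
      rk (N ⊔ Submodule.span ℤ (s : Set (Fin m → ℤ))) + rk (M ⊓ N) =
        rk ((M ⊓ N) ⊔ Submodule.span ℤ (s : Set (Fin m → ℤ))) + rk N := by
  classical
  induction s using Finset.induction_on with
  | empty =>
    intro _
    simp only [Finset.coe_empty, Submodule.span_empty, sup_bot_eq]
    exact ⟨le_of_eq (mul_comm _ _), add_comm _ _⟩
  | insert w s hw ih =>
    intro hs
    have hsM : ∀ v ∈ s, v ∈ M := fun v hv => hs v (Finset.mem_insert_of_mem hv)
    have hwM : w ∈ M := hs w (Finset.mem_insert_self w s)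
    obtain ⟨ih1, ih2⟩ := ih hsM
    set S := Submodule.span ℤ (s : Set (Fin m → ℤ)) with hS
    have hSM : S ≤ M := by
      rw [hS, Submodule.span_le]
      exact fun v hv => hsM v hv
    have e : Submodule.span ℤ ((insert w s : Finset (Fin m → ℤ)) : Set (Fin m → ℤ)) =
        S ⊔ Submodule.span ℤ {w} := by
      rw [Finset.coe_insert, Submodule.span_insert, sup_comm]
    rw [e, ← sup_assoc, ← sup_assoc]
    set C := M ⊓ N with hC
    set A := C ⊔ S with hA
    set B := N ⊔ S with hB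
    have hAB : A ≤ B := sup_le_sup inf_le_right le_rfl
    have hmod : ∀ v, v ∈ B → v ∈ M → v ∈ A := by
      intro v hvB hvM
      have h1 : (S ⊔ N) ⊓ M = S ⊔ N ⊓ M := sup_inf_assoc_of_le N hSM
      have h2 : v ∈ (S ⊔ N) ⊓ M := by
        refine ⟨?_, hvM⟩
        rw [sup_comm]
        exact hvB
      rw [h1, inf_comm, sup_comm] at h2
      exact h2
    have pA := hP.2.1 m A
    have pC := hP.2.1 m C
    have pN := hP.2.1 m N
    have pB := hP.2.1 m B
    by_cases h : ∃ k : ℕ, 0 < k ∧ (k : ℤ) • w ∈ B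
    · obtain ⟨hk0, hkB⟩ := Nat.find_spec h
      set k := Nat.find h with hk
      have hmin : ∀ j : ℕ, 0 < j → j < k → (j : ℤ) • w ∉ B := by
        intro j hj0 hjk hjB
        exact Nat.find_min h hjk ⟨hj0, hjB⟩
      have hkA : (k : ℤ) • w ∈ A := hmod _ hkB (M.smul_mem _ hwM)
      obtain ⟨t1, t2⟩ := hT m A w k hk0 hkA (fun j h0 h1 h2 => hmin j h0 h1 (hAB h2))
      obtain ⟨t3, t4⟩ := hT m B w k hk0 hkB hmin
      have hk2 : (0 : ℤ) < (k : ℤ) ^ 2 := by
        have : (0 : ℤ) < k := by exact_mod_cast hk0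
        positivity
      constructor
      · refine le_of_mul_le_mul_left ?_ hk2
        calc (k : ℤ) ^ 2 * (gd (B ⊔ Submodule.span ℤ {w}) * gd C)
            = ((k : ℤ) ^ 2 * gd (B ⊔ Submodule.span ℤ {w})) * gd C := by ring
          _ = gd B * gd C := by rw [← t3]
          _ ≤ gd A * gd N := ih1
          _ = ((k : ℤ) ^ 2 * gd (A ⊔ Submodule.span ℤ {w})) * gd N := by rw [← t1]
          _ = (k : ℤ) ^ 2 * (gd (A ⊔ Submodule.span ℤ {w}) * gd N) := by ring
      · rw [t2, t4]
        exact ih2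
    · have hno : ∀ k : ℤ, k ≠ 0 → k • w ∉ B := by
        intro k hk hkB
        apply h
        refine ⟨k.natAbs, Int.natAbs_pos.2 hk, ?_⟩
        rcases Int.natAbs_eq k with h1 | h1
        · rw [← h1]
          exact hkB
        · have h2 : ((k.natAbs : ℕ) : ℤ) = -k := by omega
          rw [h2, neg_smul]
          exact B.neg_mem hkB
      obtain ⟨f1, f2, f3⟩ := hF m A B w hAB hno
      constructor
      · have pA0 : (0 : ℤ) < gd A := by linarith
        have h1 : gd (B ⊔ Submodule.span ℤ {w}) * gd A * gd C ≤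
            gd (A ⊔ Submodule.span ℤ {w}) * gd B * gd C :=
          mul_le_mul_of_nonneg_right f1 (by linarith)
        have pA1 := hP.2.1 m (A ⊔ Submodule.span ℤ {w})
        have h2 : gd (A ⊔ Submodule.span ℤ {w}) * (gd B * gd C) ≤
            gd (A ⊔ Submodule.span ℤ {w}) * (gd A * gd N) :=
          mul_le_mul_of_nonneg_left ih1 (by linarith)
        refine le_of_mul_le_mul_left ?_ pA0
        linarith
      · rw [f2, f3]
        omega

/-- Row SUB. -/
theorem sub (hF : FisStmt) (hT : TorStmt) (hP : PosStmt) : SubStmt := by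
  intro m M N
  obtain ⟨s, hs⟩ : M.FG := IsNoetherian.noetherian M
  have hsM : ∀ v ∈ s, v ∈ M := by
    intro v hv
    rw [← hs]
    exact Submodule.subset_span hv
  obtain ⟨h1, h2⟩ := sub_aux hF hT hP m M N s hsM
  rw [hs] at h1 h2
  have e1 : M ⊓ N ⊔ M = M := sup_eq_right.2 inf_le_left
  rw [e1, sup_comm] at h1
  rw [e1, sup_comm] at h2
  constructor
  · rw [mul_comm]
    exact h1
  · omega

end Pool.Agent.LAT.H58
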