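import Pool.Agent.LAT.StmtsC

/-!
# Squad LAT, row SQS: a sequence of vectors with small distances
-/

set_option autoImplicit false

namespace Pool.Agent.LAT.H58

open Matrix Pool.Agent.LAT

/-- `rv` as an additive map. -/
def rvh (m : ℕ) : (Fin m → ℤ) →+ (Fin m → ℝ) where
  toFun := rv
  map_zero' := by funext j; simp [rv]
  map_add' := by intro a b; funext j; simp [rv]

theorem rv_zsmul {m : ℕ} (k : ℤ) (w : Fin m → ℤ) : rv (k • w) = (k : ℝ) • rv w := by
  funext j; simp [rv]

theorem rv_dot {m : ℕ} (a b : Fin m → ℤ) : rv a ⬝ᵥ rv b = ((a ⬝ᵥ b : ℤ) : ℝ) := by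
  simp [rv, dotProduct]

/-- real independence -/
theorem sqs_indep (hP : PosStmt) {m r : ℕ} (v : Fin r → Fin m → ℤ)
    (hv : LinearIndependent ℤ v) : LinearIndependent ℝ (fun i => rv (v i)) := by
  classical
  have h1 := hP.1 m r v hv
  have hdet : ((gram v).map (Int.cast : ℤ → ℝ)).det ≠ 0 := by
    have h2 : ((gram v).map (Int.castRingHom ℝ)).det = ((gram v).det : ℝ) := by
      rw [← RingHom.mapMatrix_apply, ← RingHom.map_det]
      rfl
    have h3 : ((gram v).map (Int.cast : ℤ → ℝ)).det = ((gram v).det : ℝ) := h2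
    rw [h3]
    have : (0 : ℤ) < (gram v).det := by omega
    exact_mod_cast this.ne'
  rw [Fintype.linearIndependent_iff]
  intro x hx
  have hG : ((gram v).map (Int.cast : ℤ → ℝ)) *ᵥ x = 0 := by
    funext i
    have : (((gram v).map (Int.cast : ℤ → ℝ)) *ᵥ x) i = rv (v i) ⬝ᵥ (∑ j, x j • rv (v j)) := by
      rw [dotProduct_sum]
      simp only [mulVec, dotProduct_smul, Matrix.map_apply]
      show ∑ j, _ * _ = _
      refine Finset.sum_congr rfl fun j _ => ?_
      rw [rv_dot, smul_eq_mul, mul_comm]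
      rfl
    rw [this, hx, dotProduct_zero]
    rfl
  have h0 := Matrix.eq_zero_of_mulVec_eq_zero hdet hG
  intro i
  exact congrFun h0 i

/-- the dimension of the real span -/
theorem sqs_rk (hP : PosStmt) {m : ℕ} (N : Submodule ℤ (Fin m → ℤ)) :
    Module.finrank ℝ (RS N) = rk N := by
  classical
  set b := Module.finBasis ℤ N with hb
  have hli : LinearIndependent ℤ (fun i => ((b i : N) : Fin m → ℤ)) :=
    b.linearIndependent.map' N.subtype (Submodule.ker_subtype N)
  have hr := sqs_indep hP _ hli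
  have hspan : RS N = Submodule.span ℝ (Set.range fun i => rv ((b i : N) : Fin m → ℤ)) := by
    apply le_antisymm
    · unfold RS
      rw [Submodule.span_le]
      rintro _ ⟨w, hw, rfl⟩
      have hw' : w = ∑ i, (b.repr ⟨w, hw⟩ i) • ((b i : N) : Fin m → ℤ) := by
        have := b.sum_repr ⟨w, hw⟩
        have h2 := congrArg (fun z : N => (z : Fin m → ℤ)) this
        simp only [AddSubmonoidClass.coe_finsetSum, SetLike.val_smul] at h2
        exact h2.symm
      rw [hw']
      have h3 : rv (∑ i, (b.repr ⟨w, hw⟩ i) • ((b i : N) : Fin m → ℤ)) =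
          ∑ i, ((b.repr ⟨w, hw⟩ i : ℤ) : ℝ) • rv ((b i : N) : Fin m → ℤ) := by
        have := map_sum (rvh m) (fun i => (b.repr ⟨w, hw⟩ i) • ((b i : N) : Fin m → ℤ)) Finset.univ
        refine this.trans (Finset.sum_congr rfl fun i _ => ?_)
        exact rv_zsmul _ _
      rw [h3]
      exact Submodule.sum_mem _ fun i _ => Submodule.smul_mem _ _
        (Submodule.subset_span ⟨i, rfl⟩)
    · rw [Submodule.span_le]
      rintro _ ⟨i, rfl⟩
      exact Submodule.subset_span ⟨_, (b i).2, rfl⟩
  rw [hspan, finrank_span_eq_card hr, Fintype.card_fin]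
  rfl

/-- the elements of `M` in a real subspace -/
def cutS {m : ℕ} (M : Submodule ℤ (Fin m → ℤ)) (V : Submodule ℝ (Fin m → ℝ)) :
    Submodule ℤ (Fin m → ℤ) where
  carrier := {w | w ∈ M ∧ rv w ∈ V}
  zero_mem' := ⟨M.zero_mem, by rw [show rv (0 : Fin m → ℤ) = 0 from (rvh m).map_zero]; exact V.zero_mem⟩
  add_mem' := by
    rintro a b ⟨ha, ha'⟩ ⟨hb, hb'⟩
    refine ⟨M.add_mem ha hb, ?_⟩
    rw [show rv (a + b) = rv a + rv b from (rvh m).map_add a b]
    exact V.add_mem ha' hb'
  smul_mem' := by
    rintro k a ⟨ha, ha'⟩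
    refine ⟨M.smul_mem k ha, ?_⟩
    rw [rv_zsmul]
    exact V.smul_mem _ ha'

theorem mem_cutS {m : ℕ} {M : Submodule ℤ (Fin m → ℤ)} {V : Submodule ℝ (Fin m → ℝ)}
    {w : Fin m → ℤ} : w ∈ cutS M V ↔ w ∈ M ∧ rv w ∈ V := Iff.rfl

/-- the span of the first `t` vectors -/
def spT {m : ℕ} (w : ℕ → Fin m → ℤ) (t : ℕ) : Submodule ℝ (Fin m → ℝ) :=
  Submodule.span ℝ ((fun j => rv (w j)) '' {j | j < t})

theorem spT_update {m : ℕ} (w : ℕ → Fin m → ℤ) (t : ℕ) (x : Fin m → ℤ) (i : ℕ) (hi : i ≤ t) :
    spT (Function.update w t x) i = spT w i := by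
  unfold spT
  congr 1
  apply Set.image_congr
  intro j hj
  have : j ≠ t := by
    have : j < i := hj
    omega
  simp only [Function.update_of_ne this]

theorem spT_succ {m : ℕ} (w : ℕ → Fin m → ℤ) (t : ℕ) (x : Fin m → ℤ) :
    spT (Function.update w t x) (t + 1) = Submodule.span ℝ {rv x} ⊔ spT w t := by
  unfold spT
  have : {j | j < t + 1} = insert t {j | j < t} := by
    ext j; simp only [Set.mem_ofPred_eq, Set.mem_insert_iff]; omega
  rw [this, Set.image_insert_eq, Submodule.span_insert]
  congr 1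
  · simp
  · congr 1
    apply Set.image_congr
    intro j hj
    have : j ≠ t := by
      have : j < t := hj
      omega
    simp only [Function.update_of_ne this]

theorem spT_le {m : ℕ} {M : Submodule ℤ (Fin m → ℤ)} {w : ℕ → Fin m → ℤ} (hw : ∀ i, w i ∈ M)
    (t : ℕ) : spT w t ≤ RS M := by
  unfold spT RS
  apply Submodule.span_mono
  rintro _ ⟨j, -, rfl⟩
  exact ⟨w j, hw j, rfl⟩

/-- Row SQS. -/
theorem sqs (hQ : QmkStmt) (hG : GdwStmt) (hP : PosStmt) : SqsStmt := by
  classical
  intro m D M hD hM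
  have key : ∀ t ≤ rk M, ∃ w : ℕ → Fin m → ℤ, (∀ i, w i ∈ M) ∧
      (∀ i < t, ∃ q ∈ spT w i, sq (rv (w i) - q) ≤ ((rk M : ℝ) - i) * D) ∧
      Module.finrank ℝ (spT w t) = t := by
    intro t
    induction t with
    | zero =>
      intro _
      refine ⟨fun _ => 0, fun _ => M.zero_mem, fun i hi => absurd hi (Nat.not_lt_zero i), ?_⟩
      have : spT (fun _ => (0 : Fin m → ℤ)) 0 = ⊥ := by
        unfold spT
        simp
      rw [this, finrank_bot]
    | succ t ih =>
      intro ht
      obtain ⟨w, hw1, hw2, hw3⟩ := ih (by omega)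
      set N := cutS M (spT w t) with hN
      have hNM : N ≤ M := fun x hx => hx.1
      have hRS : RS N = spT w t := by
        apply le_antisymm
        · unfold RS
          rw [Submodule.span_le]
          rintro _ ⟨x, hx, rfl⟩
          exact hx.2
        · have : spT w t ≤ RS N := by
            unfold RS
            show Submodule.span ℝ _ ≤ _
            rw [Submodule.span_le]
            rintro _ ⟨j, hj, rfl⟩
            refine Submodule.subset_span ⟨w j, ⟨hw1 j, ?_⟩, rfl⟩
            exact Submodule.subset_span ⟨j, hj, rfl⟩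
          exact this
      have hrk : rk N = t := by rw [← sqs_rk hP, hRS, hw3]
      have hne : N ≠ M := by
        intro h
        rw [h] at hrk
        omega
      have hsat : ∀ x ∈ M, ∀ k : ℤ, k ≠ 0 → k • x ∈ N → x ∈ N := by
        intro x hx k hk hkx
        refine ⟨hx, ?_⟩
        have h1 : rv (k • x) ∈ spT w t := hkx.2
        rw [rv_zsmul] at h1
        have hk' : (k : ℝ) ≠ 0 := by exact_mod_cast hk
        exact (Submodule.smul_mem_iff _ hk').1 h1
      have hph : ph D N ≤ ph D M := hM N (lt_of_le_of_ne hNM hne)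
      obtain ⟨x, hxM, hxN, hgd⟩ := hQ m D N M hD hNM hne hsat hph
      have hxV : rv x ∉ spT w t := fun h => hxN ⟨hxM, h⟩
      have hmul : ∀ k : ℤ, k ≠ 0 → k • x ∉ N := fun k hk h => hxN (hsat x hxM k hk h)
      obtain ⟨-, q, hq, hgq⟩ := hG m N x hmul
      rw [hRS] at hq
      have hg1 : (1 : ℤ) ≤ gd N := hP.2.1 m N
      have hg1' : (0 : ℝ) < (gd N : ℝ) := by exact_mod_cast (by omega : (0 : ℤ) < gd N)
      have hsq : sq (rv x - q) ≤ ((rk M : ℝ) - t) * D := by
        have h1 : ((gd (N ⊔ Submodule.span ℤ {x}) : ℤ) : ℝ) ≤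
            ((rk M - rk N : ℕ) : ℝ) * D * gd N := by exact_mod_cast hgd
        rw [hgq, hrk, Nat.cast_sub (by omega)] at h1
        have h2 : (gd N : ℝ) * sq (rv x - q) ≤ (gd N : ℝ) * (((rk M : ℝ) - t) * D) := by
          linarith
        exact le_of_mul_le_mul_left h2 hg1'
      refine ⟨Function.update w t x, ?_, ?_, ?_⟩
      · intro i
        by_cases hi : i = t
        · subst hi
          rw [Function.update_self]
          exact hxM
        · rw [Function.update_of_ne hi]
          exact hw1 i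
      · intro i hi
        rw [spT_update w t x i (by omega)]
        by_cases hit : i = t
        · subst hit
          rw [Function.update_self]
          exact ⟨q, hq, hsq⟩
        · rw [Function.update_of_ne hit]
          exact hw2 i (by omega)
      · rw [spT_succ]
        have hx0 : rv x ≠ 0 := fun h => hxV (h ▸ Submodule.zero_mem _)
        have hdis : Submodule.span ℝ {rv x} ⊓ spT w t = ⊥ := by
          rw [← disjoint_iff, disjoint_comm, Submodule.disjoint_span_singleton' hx0]
          exact hxV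
        have := Submodule.finrank_sup_add_finrank_inf_eq (Submodule.span ℝ {rv x}) (spT w t)
        rw [hdis, finrank_bot, finrank_span_singleton hx0, hw3] at this
        omega
  obtain ⟨w, hw1, hw2, hw3⟩ := key (rk M) le_rfl
  refine ⟨w, hw1, hw2, ?_⟩
  have hle : spT w (rk M) ≤ RS M := spT_le hw1 _
  have heq : spT w (rk M) = RS M :=
    Submodule.eq_of_le_of_finrank_eq hle (by rw [hw3, sqs_rk hP])
  exact heq.symm.le

end Pool.Agent.LAT.H58
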