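import Pool.Agent.Helper58_LAT.FIB

/-!
# Squad LAT, row FIB with signs: the certificates with a given marked element, by the parity of the
number of the blocks
-/

set_option autoImplicit false

namespace Pool.Agent.LAT.H58

open Matrix Pool.Agent.LAT

/-- The certificates with the marked element `B` are the triples (chain below, chain above, tail). -/
theorem fib_img (hE : HneStmt) (hU : HnuStmt) (hN : HndStmt) (hP : PosStmt) (n m d s : ℕ)
    (A : Matrix (Fin n) (Fin m) ℤ) (v : Fin m → ℤ) (B : Matrix (Fin m) (Fin m) ℤ)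
    (hB : PQ (rows A) (4 * d) B) :
    ∃ G : List (Submodule ℤ (Fin m → ℤ)) × List (Submodule ℤ (Fin m → ℤ)) ×
      ((Fin m → ℤ) × (Fin n → ℤ) × (Fin m → ℤ)) →
      List (Matrix (Fin m) (Fin m) ℤ) × ℕ × (Fin m → ℤ) × (Fin n → ℤ) × (Fin m → ℤ),
      {q ∈ CS A v d s | q.1.getD q.2.1 0 = B} =
        G '' (chns (WS (4 * d) (rows B)) ×ˢ (chns (US (rows A) (4 * d) (rows B)) ×ˢ
          {t : (Fin m → ℤ) × (Fin n → ℤ) × (Fin m → ℤ) | Tail A v d B t.1 t.2.1 t.2.2 ∧
            (∀ j, Rng ((s + 2) ^ 8) (t.1 j)) ∧ (∀ j, Rng ((s + 2) ^ 8) (t.2.1 j)) ∧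
            ∀ j, Rng ((s + 2) ^ 8) (t.2.2 j)})) ∧
      Set.InjOn G (chns (WS (4 * d) (rows B)) ×ˢ (chns (US (rows A) (4 * d) (rows B)) ×ˢ
          {t : (Fin m → ℤ) × (Fin n → ℤ) × (Fin m → ℤ) | Tail A v d B t.1 t.2.1 t.2.2 ∧
            (∀ j, Rng ((s + 2) ^ 8) (t.1 j)) ∧ (∀ j, Rng ((s + 2) ^ 8) (t.2.1 j)) ∧
            ∀ j, Rng ((s + 2) ^ 8) (t.2.2 j)})) ∧
      ∀ p, (G p).1.length = p.1.length + (p.2.1.length + 1) := by
  classical
  obtain ⟨hBH, hBL, hBD⟩ := hB
  choose g hgH hgR using hE m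
  have hgI : Function.Injective g := fun M N h => by rw [← hgR M, ← hgR N, h]
  have hgr : ∀ C, IsHNF C → g (rows C) = C := fun C hC => hU m _ _ (hgH _) hC (hgR _)
  set T := {t : (Fin m → ℤ) × (Fin n → ℤ) × (Fin m → ℤ) | Tail A v d B t.1 t.2.1 t.2.2 ∧
        (∀ j, Rng ((s + 2) ^ 8) (t.1 j)) ∧ (∀ j, Rng ((s + 2) ^ 8) (t.2.1 j)) ∧
        ∀ j, Rng ((s + 2) ^ 8) (t.2.2 j)} with hT
  set W := chns (WS (4 * d) (rows B)) with hW
  set U := chns (US (rows A) (4 * d) (rows B)) with hU'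
  set G : List (Submodule ℤ (Fin m → ℤ)) × List (Submodule ℤ (Fin m → ℤ)) ×
      ((Fin m → ℤ) × (Fin n → ℤ) × (Fin m → ℤ)) →
      List (Matrix (Fin m) (Fin m) ℤ) × ℕ × (Fin m → ℤ) × (Fin n → ℤ) × (Fin m → ℤ) :=
    fun p => (p.1.map g ++ B :: p.2.1.map g, p.1.length, p.2.2) with hG
  have hX : {q ∈ CS A v d s | q.1.getD q.2.1 0 = B} = G '' (W ×ˢ (U ×ˢ T)) := by
    ext ⟨l, c, u, z, y⟩
    constructor
    · rintro ⟨hq, hqB⟩
      have hq' : IsCS A v d s l c u z y := hq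
      have hqB' : l.getD c 0 = B := hqB
      have hcl := hq'.lt
      have hlc : l[c] = B := by
        rw [← hqB', List.getD_eq_getElem _ _ hcl]
      have hsplit : l = l.take c ++ B :: l.drop (c + 1) := by
        conv_lhs => rw [← List.take_append_drop c l, List.drop_eq_getElem_cons hcl, hlc]
      have hpw := hq'.chain
      rw [hsplit] at hpw
      obtain ⟨hp1, hp2, hp3⟩ := List.pairwise_append.1 hpw
      obtain ⟨hp4, hp5⟩ := List.pairwise_cons.1 hp2
      have hmem1 : ∀ C ∈ l.take c, ∃ t < c, l.getD t 0 = C := by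
        intro C hC
        obtain ⟨t, ht, rfl⟩ := List.mem_iff_getElem.1 hC
        rw [List.length_take] at ht
        refine ⟨t, by omega, ?_⟩
        rw [List.getD_eq_getElem _ _ (by omega), List.getElem_take]
      have hmem2 : ∀ C ∈ l.drop (c + 1), ∃ t, c < t ∧ t < l.length ∧ l.getD t 0 = C := by
        intro C hC
        obtain ⟨t, ht, rfl⟩ := List.mem_iff_getElem.1 hC
        rw [List.length_drop] at ht
        refine ⟨c + 1 + t, by omega, by omega, ?_⟩
        rw [List.getD_eq_getElem _ _ (by omega), List.getElem_drop]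
      refine ⟨((l.take c).map rows, (l.drop (c + 1)).map rows, (u, z, y)), ⟨?_, ?_, ?_⟩, ?_⟩
      · refine ⟨?_, ?_⟩
        · intro N hNm
          obtain ⟨C, hC, rfl⟩ := List.mem_map.1 hNm
          obtain ⟨t, ht, htC⟩ := hmem1 C hC
          have hCH : IsHNF C := (hq'.hnf C (List.mem_of_mem_take hC)).1
          refine ⟨hp3 C hC B (List.mem_cons_self ..), ?_⟩
          rw [← fib_lt hN hP (4 * d) hBH hCH]
          have := hq'.before t ht
          rwa [hqB', htC] at this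
        · exact List.pairwise_map.2 hp1
      · refine ⟨?_, ?_⟩
        · intro N hNm
          obtain ⟨C, hC, rfl⟩ := List.mem_map.1 hNm
          obtain ⟨t, ht, ht2, htC⟩ := hmem2 C hC
          have hCH : IsHNF C := (hq'.hnf C (List.mem_of_mem_drop hC)).1
          refine ⟨hp4 C hC, (hq'.hnf C (List.mem_of_mem_drop hC)).2, ?_⟩
          rw [← fib_le hN hP (4 * d) hBH hCH]
          have := hq'.after t ht ht2
          rwa [hqB', htC] at this
        · exact List.pairwise_map.2 hp5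
      · have := hq'.tail
        rw [hqB'] at this
        exact ⟨this, hq'.ru, hq'.rz, hq'.ry⟩
      · have e1 : ∀ l' : List (Matrix (Fin m) (Fin m) ℤ), (∀ C ∈ l', IsHNF C) →
            (l'.map rows).map g = l' := by
          intro l' hl'
          rw [List.map_map]
          conv_rhs => rw [← List.map_id l']
          exact List.map_congr_left fun C hC => hgr C (hl' C hC)
        simp only [hG]
        rw [e1 _ fun C hC => (hq'.hnf C (List.mem_of_mem_take hC)).1,
          e1 _ fun C hC => (hq'.hnf C (List.mem_of_mem_drop hC)).1, ← hsplit, List.length_map,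
          List.length_take, min_eq_left hcl.le]
    · rintro ⟨⟨l1, l2, t⟩, ⟨h1, h2, h3⟩, he⟩
      obtain ⟨h1a, h1b⟩ := h1
      obtain ⟨h2a, h2b⟩ := h2
      obtain ⟨h3a, h3b, h3c, h3d⟩ := h3
      simp only [hG, Prod.mk.injEq] at he
      obtain ⟨he1, he2, he3⟩ := he
      subst he3
      simp only at h1a h1b h2a h2b h3a h3b h3c h3d
      have hgetc : l.getD c 0 = B := by
        rw [← he1, ← he2, List.getD_append_right _ _ _ _ (by simp)]
        simp
      have hlen : l.length = l1.length + (l2.length + 1) := by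
        rw [← he1]; simp
      refine ⟨?_, hgetc⟩
      show IsCS A v d s l c u z y
      refine ⟨?_, ?_, ?_, ?_, ?_, ?_, ?_, h3b, h3c, h3d⟩
      · intro C hC
        rw [← he1, List.mem_append, List.mem_cons, List.mem_map, List.mem_map] at hC
        rcases hC with ⟨N, hNm, rfl⟩ | rfl | ⟨N, hNm, rfl⟩
        · refine ⟨hgH N, ?_⟩
          rw [hgR]
          exact (h1a N hNm).1.le.trans hBL
        · exact ⟨hBH, hBL⟩
        · refine ⟨hgH N, ?_⟩
          rw [hgR]
          exact (h2a N hNm).2.1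
      · rw [← he1, List.pairwise_append]
        refine ⟨?_, ?_, ?_⟩
        · rw [List.pairwise_map]
          refine h1b.imp ?_
          intro a b hab
          rwa [hgR, hgR]
        · rw [List.pairwise_cons]
          refine ⟨?_, ?_⟩
          · intro C hC
            obtain ⟨N, hNm, rfl⟩ := List.mem_map.1 hC
            rw [hgR]
            exact (h2a N hNm).1
          · rw [List.pairwise_map]
            refine h2b.imp ?_
            intro a b hab
            rwa [hgR, hgR]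
        · intro C hC C' hC'
          obtain ⟨N, hNm, rfl⟩ := List.mem_map.1 hC
          rw [hgR]
          have hNB : N < rows B := (h1a N hNm).1
          rw [List.mem_cons, List.mem_map] at hC'
          rcases hC' with rfl | ⟨N', hNm', rfl⟩
          · exact hNB
          · rw [hgR]
            exact hNB.trans (h2a N' hNm').1
      · omega
      · rw [hgetc]
        exact ⟨hBH, hBL, hBD⟩
      · intro t ht
        rw [hgetc]
        have htl : t < l1.length := by omega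
        have : l.getD t 0 = g (l1[t]) := by
          rw [← he1, List.getD_append _ _ _ _ (by simpa using htl),
            List.getD_eq_getElem _ _ (by simpa using htl), List.getElem_map]
        rw [this, fib_lt hN hP (4 * d) hBH (hgH _), hgR]
        exact (h1a _ (List.getElem_mem htl)).2
      · intro t ht htl
        rw [hgetc]
        have htl' : t - l1.length - 1 < l2.length := by omega
        have : l.getD t 0 = g (l2[t - l1.length - 1]) := by
          rw [← he1, List.getD_append_right _ _ _ _ (by simp; omega), List.length_map]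
          obtain ⟨k, hk⟩ : ∃ k, t - l1.length = k + 1 := ⟨t - l1.length - 1, by omega⟩
          have hk' : t - l1.length - 1 = k := by omega
          simp only [hk]
          rw [List.getD_cons_succ, List.getD_eq_getElem _ _ (by simp; omega), List.getElem_map]
          simp
        rw [this, fib_le hN hP (4 * d) hBH (hgH _), hgR]
        exact (h2a _ (List.getElem_mem htl')).2.2
      · rw [hgetc]
        exact h3a
  have hinj : Set.InjOn G (W ×ˢ (U ×ˢ T)) := by
    rintro ⟨l1, l2, t⟩ - ⟨l1', l2', t'⟩ - he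
    simp only [hG, Prod.mk.injEq] at he
    obtain ⟨he1, he2, he3⟩ := he
    obtain ⟨h1, h2⟩ := List.append_inj he1 (by simpa using he2)
    obtain ⟨-, h3⟩ := List.cons.inj h2
    rw [List.map_injective_iff.2 hgI h1, List.map_injective_iff.2 hgI h3, he3]
  exact ⟨G, hX, hinj, fun p => by simp [hG]⟩

/-- A part of the product of two finite sets, by the parity of the sum. -/
theorem prod_odd {α β : Type} (W : Set α) (U : Set β) (a : α → ℕ) (b : β → ℕ) (hW : W.Finite)
    (hU : U.Finite) :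
    {p : α × β | (p.1 ∈ W ∧ p.2 ∈ U) ∧ Odd (a p.1 + (b p.2 + 1))}.ncard =
      {x ∈ W | Even (a x)}.ncard * {y ∈ U | Even (b y)}.ncard +
      {x ∈ W | Odd (a x)}.ncard * {y ∈ U | Odd (b y)}.ncard ∧
    {p : α × β | (p.1 ∈ W ∧ p.2 ∈ U) ∧ Even (a p.1 + (b p.2 + 1))}.ncard =
      {x ∈ W | Even (a x)}.ncard * {y ∈ U | Odd (b y)}.ncard +
      {x ∈ W | Odd (a x)}.ncard * {y ∈ U | Even (b y)}.ncard := by
  have fWe : {x ∈ W | Even (a x)}.Finite := hW.subset fun x hx => hx.1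
  have fWo : {x ∈ W | Odd (a x)}.Finite := hW.subset fun x hx => hx.1
  have fUe : {y ∈ U | Even (b y)}.Finite := hU.subset fun x hx => hx.1
  have fUo : {y ∈ U | Odd (b y)}.Finite := hU.subset fun x hx => hx.1
  have key : ∀ (S S' : Set α) (R R' : Set β), S.Finite → S'.Finite → R.Finite → R'.Finite →
      Disjoint S S' → ((S ×ˢ R) ∪ (S' ×ˢ R')).ncard = S.ncard * R.ncard + S'.ncard * R'.ncard := by
    intro S S' R R' h1 h2 h3 h4 hd
    rw [Set.ncard_union_eq ?_ (h1.prod h3) (h2.prod h4), Set.ncard_prod, Set.ncard_prod]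
    rw [Set.disjoint_left]
    rintro ⟨x, y⟩ hx hx'
    exact Set.disjoint_left.1 hd hx.1 hx'.1
  have hd : Disjoint {x ∈ W | Even (a x)} {x ∈ W | Odd (a x)} := by
    rw [Set.disjoint_left]
    rintro x hx hx'
    exact (Nat.not_odd_iff_even.2 hx.2) hx'.2
  constructor
  · rw [← key _ _ _ _ fWe fWo fUe fUo hd]
    congr 1
    ext ⟨x, y⟩
    constructor
    · rintro ⟨⟨hx, hy⟩, ho⟩
      have hx : x ∈ W := hx
      have hy : y ∈ U := hy
      have ho : Odd (a x + (b y + 1)) := ho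
      rcases Nat.even_or_odd (a x) with h | h
      · refine Or.inl ⟨⟨hx, h⟩, ⟨hy, ?_⟩⟩
        show Even (b y)
        rw [Nat.odd_add] at ho
        have h1 : ¬ Odd (a x) := Nat.not_odd_iff_even.2 h
        by_contra h2
        apply h1
        rw [ho]
        exact (Nat.not_even_iff_odd.1 h2).add_odd odd_one
      · refine Or.inr ⟨⟨hx, h⟩, ⟨hy, ?_⟩⟩
        show Odd (b y)
        rw [Nat.odd_add] at ho
        have h1 := ho.1 h
        rw [Nat.even_add_one, Nat.not_even_iff_odd] at h1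
        exact h1
    · rintro (⟨⟨hx, h⟩, ⟨hy, h'⟩⟩ | ⟨⟨hx, h⟩, ⟨hy, h'⟩⟩)
      · refine ⟨⟨hx, hy⟩, ?_⟩
        show Odd (a x + (b y + 1))
        exact Even.add_odd h (Even.add_one h')
      · refine ⟨⟨hx, hy⟩, ?_⟩
        show Odd (a x + (b y + 1))
        exact Odd.add_even h (Odd.add_one h')
  · rw [← key _ _ _ _ fWe fWo fUo fUe hd]
    congr 1
    ext ⟨x, y⟩
    constructor
    · rintro ⟨⟨hx, hy⟩, ho⟩
      have hx : x ∈ W := hx
      have hy : y ∈ U := hy
      have ho : Even (a x + (b y + 1)) := ho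
      rcases Nat.even_or_odd (a x) with h | h
      · refine Or.inl ⟨⟨hx, h⟩, ⟨hy, ?_⟩⟩
        show Odd (b y)
        rw [Nat.even_add] at ho
        have h1 := ho.1 h
        rw [Nat.even_add_one, Nat.not_even_iff_odd] at h1
        exact h1
      · refine Or.inr ⟨⟨hx, h⟩, ⟨hy, ?_⟩⟩
        show Even (b y)
        rw [Nat.even_add] at ho
        by_contra h2
        have h3 : Even (a x) := ho.2 ((Nat.not_even_iff_odd.1 h2).add_one)
        exact (Nat.not_odd_iff_even.2 h3) h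
    · rintro (⟨⟨hx, h⟩, ⟨hy, h'⟩⟩ | ⟨⟨hx, h⟩, ⟨hy, h'⟩⟩)
      · refine ⟨⟨hx, hy⟩, ?_⟩
        show Even (a x + (b y + 1))
        exact Even.add h (Odd.add_one h')
      · refine ⟨⟨hx, hy⟩, ?_⟩
        show Even (a x + (b y + 1))
        exact Odd.add_odd h (Even.add_one h')

/-- Row FIB with signs. -/
theorem fibs (hE : HneStmt) (hU : HnuStmt) (hN : HndStmt) (hP : PosStmt) (n m d s : ℕ)
    (A : Matrix (Fin n) (Fin m) ℤ) (v : Fin m → ℤ) (B : Matrix (Fin m) (Fin m) ℤ)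
    (hB : PQ (rows A) (4 * d) B) (hWf : (chns (WS (4 * d) (rows B))).Finite)
    (hUf : (chns (US (rows A) (4 * d) (rows B))).Finite) :
    {q ∈ CS A v d s | q.1.getD q.2.1 0 = B ∧ Odd q.1.length}.ncard =
      ({l ∈ chns (WS (4 * d) (rows B)) | Even l.length}.ncard *
        {l ∈ chns (US (rows A) (4 * d) (rows B)) | Even l.length}.ncard +
      {l ∈ chns (WS (4 * d) (rows B)) | Odd l.length}.ncard *
        {l ∈ chns (US (rows A) (4 * d) (rows B)) | Odd l.length}.ncard) *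
      {t : (Fin m → ℤ) × (Fin n → ℤ) × (Fin m → ℤ) | Tail A v d B t.1 t.2.1 t.2.2 ∧
        (∀ j, Rng ((s + 2) ^ 8) (t.1 j)) ∧ (∀ j, Rng ((s + 2) ^ 8) (t.2.1 j)) ∧
        ∀ j, Rng ((s + 2) ^ 8) (t.2.2 j)}.ncard ∧
    {q ∈ CS A v d s | q.1.getD q.2.1 0 = B ∧ Even q.1.length}.ncard =
      ({l ∈ chns (WS (4 * d) (rows B)) | Even l.length}.ncard *
        {l ∈ chns (US (rows A) (4 * d) (rows B)) | Odd l.length}.ncard +
      {l ∈ chns (WS (4 * d) (rows B)) | Odd l.length}.ncard *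
        {l ∈ chns (US (rows A) (4 * d) (rows B)) | Even l.length}.ncard) *
      {t : (Fin m → ℤ) × (Fin n → ℤ) × (Fin m → ℤ) | Tail A v d B t.1 t.2.1 t.2.2 ∧
        (∀ j, Rng ((s + 2) ^ 8) (t.1 j)) ∧ (∀ j, Rng ((s + 2) ^ 8) (t.2.1 j)) ∧
        ∀ j, Rng ((s + 2) ^ 8) (t.2.2 j)}.ncard := by
  obtain ⟨G, hG, hinj, hlen⟩ := fib_img hE hU hN hP n m d s A v B hB
  obtain ⟨T, hT⟩ : ∃ T, T = {t : (Fin m → ℤ) × (Fin n → ℤ) × (Fin m → ℤ) |
      Tail A v d B t.1 t.2.1 t.2.2 ∧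
        (∀ j, Rng ((s + 2) ^ 8) (t.1 j)) ∧ (∀ j, Rng ((s + 2) ^ 8) (t.2.1 j)) ∧
        ∀ j, Rng ((s + 2) ^ 8) (t.2.2 j)} := ⟨_, rfl⟩
  rw [← hT] at hG hinj ⊢
  obtain ⟨W, hW⟩ : ∃ W, W = chns (WS (4 * d) (rows B)) := ⟨_, rfl⟩
  obtain ⟨U, hU⟩ : ∃ U, U = chns (US (rows A) (4 * d) (rows B)) := ⟨_, rfl⟩
  rw [← hW] at hG hinj hWf ⊢
  rw [← hU] at hG hinj hUf ⊢
  have step : ∀ Q : ℕ → Prop, {q ∈ CS A v d s | q.1.getD q.2.1 0 = B ∧ Q q.1.length}.ncard =
      {p : List (Submodule ℤ (Fin m → ℤ)) × List (Submodule ℤ (Fin m → ℤ)) |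
        (p.1 ∈ W ∧ p.2 ∈ U) ∧ Q (p.1.length + (p.2.length + 1))}.ncard * T.ncard := by
    intro Q
    rw [← Set.ncard_prod]
    have h1 : {q ∈ CS A v d s | q.1.getD q.2.1 0 = B ∧ Q q.1.length} =
        (fun p : (List (Submodule ℤ (Fin m → ℤ)) × List (Submodule ℤ (Fin m → ℤ))) ×
          ((Fin m → ℤ) × (Fin n → ℤ) × (Fin m → ℤ)) => G (p.1.1, p.1.2, p.2)) ''
        ({p : List (Submodule ℤ (Fin m → ℤ)) × List (Submodule ℤ (Fin m → ℤ)) |
        (p.1 ∈ W ∧ p.2 ∈ U) ∧ Q (p.1.length + (p.2.length + 1))} ×ˢ T) := by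
      ext q
      constructor
      · rintro ⟨h1, h2, h3⟩
        have h4 : q ∈ {q ∈ CS A v d s | q.1.getD q.2.1 0 = B} := ⟨h1, h2⟩
        rw [hG] at h4
        obtain ⟨⟨l1, l2, t⟩, ⟨h5, h6, h7⟩, rfl⟩ := h4
        refine ⟨((l1, l2), t), ⟨⟨⟨h5, h6⟩, ?_⟩, h7⟩, rfl⟩
        rw [hlen] at h3
        exact h3
      · rintro ⟨⟨⟨l1, l2⟩, t⟩, ⟨⟨⟨h5, h6⟩, h8⟩, h7⟩, rfl⟩
        have h4 : G (l1, l2, t) ∈ {q ∈ CS A v d s | q.1.getD q.2.1 0 = B} := by
          rw [hG]
          exact ⟨(l1, l2, t), ⟨h5, h6, h7⟩, rfl⟩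
        refine ⟨h4.1, h4.2, ?_⟩
        show Q (G (l1, l2, t)).1.length
        rw [hlen]
        exact h8
    rw [h1]
    apply Set.InjOn.ncard_image
    rintro ⟨⟨l1, l2⟩, t⟩ ⟨⟨⟨h5, h6⟩, -⟩, h7⟩ ⟨⟨l1', l2'⟩, t'⟩ ⟨⟨⟨h5', h6'⟩, -⟩, h7'⟩ he
    have h9 := hinj (show (l1, l2, t) ∈ W ×ˢ (U ×ˢ T) from ⟨h5, h6, h7⟩)
      (show (l1', l2', t') ∈ W ×ˢ (U ×ˢ T) from ⟨h5', h6', h7'⟩) he
    simp only [Prod.mk.injEq] at h9
    obtain ⟨r1, r2, r3⟩ := h9
    rw [r1, r2, r3]
  obtain ⟨h1, h2⟩ := prod_odd W U List.length List.length hWf hUf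
  rw [step Odd, step Even, h1, h2]
  exact ⟨rfl, rfl⟩

end Pool.Agent.LAT.H58
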