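import Pool.Agent.LAT.StmtsC

/-!
# Squad LAT, row FIB: the certificates with a given marked element
-/

set_option autoImplicit false

namespace Pool.Agent.LAT.H58

open Matrix Pool.Agent.LAT

theorem fib_pos (hN : HndStmt) (hP : PosStmt) {m : ℕ} {M : Matrix (Fin m) (Fin m) ℤ}
    (hM : IsHNF M) : (0 : ℚ) < ((GG M).det : ℚ) := by
  have h1 := hP.2.1 m (rows M)
  rw [(hN m M hM).1] at h1
  exact_mod_cast (by omega : (0 : ℤ) < (GG M).det)

theorem fib_lt (hN : HndStmt) (hP : PosStmt) {m : ℕ} (D : ℕ) {M N : Matrix (Fin m) (Fin m) ℤ}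
    (hM : IsHNF M) (hN' : IsHNF N) : phiLt D M N ↔ ph D (rows M) < ph D (rows N) := by
  have p1 := fib_pos hN hP hM
  have p2 := fib_pos hN hP hN'
  unfold phiLt ph
  rw [(hN m M hM).1, (hN m M hM).2, (hN m N hN').1, (hN m N hN').2, div_lt_div_iff₀ p1 p2]
  exact_mod_cast Iff.rfl

theorem fib_le (hN : HndStmt) (hP : PosStmt) {m : ℕ} (D : ℕ) {M N : Matrix (Fin m) (Fin m) ℤ}
    (hM : IsHNF M) (hN' : IsHNF N) : phiLe D M N ↔ ph D (rows M) ≤ ph D (rows N) := by
  have p1 := fib_pos hN hP hM
  have p2 := fib_pos hN hP hN'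
  unfold phiLe ph
  rw [(hN m M hM).1, (hN m M hM).2, (hN m N hN').1, (hN m N hN').2, div_le_div_iff₀ p1 p2]
  exact_mod_cast Iff.rfl

/-- Row FIB. -/
theorem fib (hE : HneStmt) (hU : HnuStmt) (hN : HndStmt) (hP : PosStmt) : FibStmt := by
  classical
  intro n m d s A v B hB
  obtain ⟨hBH, hBL, hBD⟩ := hB
  choose g hgH hgR using hE m
  have hgI : Function.Injective g := fun M N h => by rw [← hgR M, ← hgR N, h]
  have hgr : ∀ C, IsHNF C → g (rows C) = C := fun C hC => hU m _ _ (hgH _) hC (hgR _)
  set T := {t : (Fin m → ℤ) × (Fin n → ℤ) × (Fin m → ℤ) | Tail A v d B t.1 t.2.1 t.2.2 ∧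
        (∀ j, Rng ((s + 2) ^ 8) (t.1 j)) ∧ (∀ j, Rng ((s + 2) ^ 8) (t.2.1 j)) ∧
        ∀ j, Rng ((s + 2) ^ 8) (t.2.2 j)} with hT
  set W := chns (WS (4 * d) (rows B)) with hW
  set U := chns (US (rows A) (4 * d) (rows B)) with hU'
  set G : List (Submodule ℤ (Fin m → ℤ)) × List (Submodule ℤ (Fin m → ℤ)) ×
      ((Fin m → ℤ) × (Fin n → ℤ) × (Fin m → ℤ)) →
      List (Matrix (Fin m) (Fin m) ℤ) × ℕ × (Fin m → ℤ) × (Fin n → ℤ) × (Fin m → ℤ) :=
    fun p => (p.1.map g ++ B :: p.2.1.map g, p.1.length, p.2.2) with hG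
  have hX : {q ∈ CS A v d s | q.1.getD q.2.1 0 = B} = G '' (W ×ˢ (U ×ˢ T)) := by
    ext ⟨l, c, u, z, y⟩
    constructor
    · rintro ⟨hq, hqB⟩
      have hq' : IsCS A v d s l c u z y := hq
      have hqB' : l.getD c 0 = B := hqB
      have hcl := hq'.lt
      have hlc : l[c] = B := by
        rw [← hqB', List.getD_eq_getElem _ _ hcl]
      have hsplit : l = l.take c ++ B :: l.drop (c + 1) := by
        conv_lhs => rw [← List.take_append_drop c l, List.drop_eq_getElem_cons hcl, hlc]
      have hpw := hq'.chain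
      rw [hsplit] at hpw
      obtain ⟨hp1, hp2, hp3⟩ := List.pairwise_append.1 hpw
      obtain ⟨hp4, hp5⟩ := List.pairwise_cons.1 hp2
      have hmem1 : ∀ C ∈ l.take c, ∃ t < c, l.getD t 0 = C := by
        intro C hC
        obtain ⟨t, ht, rfl⟩ := List.mem_iff_getElem.1 hC
        rw [List.length_take] at ht
        refine ⟨t, by omega, ?_⟩
        rw [List.getD_eq_getElem _ _ (by omega), List.getElem_take]
      have hmem2 : ∀ C ∈ l.drop (c + 1), ∃ t, c < t ∧ t < l.length ∧ l.getD t 0 = C := by
        intro C hC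
        obtain ⟨t, ht, rfl⟩ := List.mem_iff_getElem.1 hC
        rw [List.length_drop] at ht
        refine ⟨c + 1 + t, by omega, by omega, ?_⟩
        rw [List.getD_eq_getElem _ _ (by omega), List.getElem_drop]
      refine ⟨((l.take c).map rows, (l.drop (c + 1)).map rows, (u, z, y)), ⟨?_, ?_, ?_⟩, ?_⟩
      · refine ⟨?_, ?_⟩
        · intro N hNm
          obtain ⟨C, hC, rfl⟩ := List.mem_map.1 hNm
          obtain ⟨t, ht, htC⟩ := hmem1 C hC
          have hCH : IsHNF C := (hq'.hnf C (List.mem_of_mem_take hC)).1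
          refine ⟨hp3 C hC B (List.mem_cons_self ..), ?_⟩
          rw [← fib_lt hN hP (4 * d) hBH hCH]
          have := hq'.before t ht
          rwa [hqB', htC] at this
        · exact List.pairwise_map.2 hp1
      · refine ⟨?_, ?_⟩
        · intro N hNm
          obtain ⟨C, hC, rfl⟩ := List.mem_map.1 hNm
          obtain ⟨t, ht, ht2, htC⟩ := hmem2 C hC
          have hCH : IsHNF C := (hq'.hnf C (List.mem_of_mem_drop hC)).1
          refine ⟨hp4 C hC, (hq'.hnf C (List.mem_of_mem_drop hC)).2, ?_⟩
          rw [← fib_le hN hP (4 * d) hBH hCH]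
          have := hq'.after t ht ht2
          rwa [hqB', htC] at this
        · exact List.pairwise_map.2 hp5
      · have := hq'.tail
        rw [hqB'] at this
        exact ⟨this, hq'.ru, hq'.rz, hq'.ry⟩
      · have e1 : ∀ l' : List (Matrix (Fin m) (Fin m) ℤ), (∀ C ∈ l', IsHNF C) →
            (l'.map rows).map g = l' := by
          intro l' hl'
          rw [List.map_map]
          conv_rhs => rw [← List.map_id l']
          exact List.map_congr_left fun C hC => hgr C (hl' C hC)
        simp only [hG]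
        rw [e1 _ fun C hC => (hq'.hnf C (List.mem_of_mem_take hC)).1,
          e1 _ fun C hC => (hq'.hnf C (List.mem_of_mem_drop hC)).1, ← hsplit, List.length_map,
          List.length_take, min_eq_left hcl.le]
    · rintro ⟨⟨l1, l2, t⟩, ⟨h1, h2, h3⟩, he⟩
      obtain ⟨h1a, h1b⟩ := h1
      obtain ⟨h2a, h2b⟩ := h2
      obtain ⟨h3a, h3b, h3c, h3d⟩ := h3
      simp only [hG, Prod.mk.injEq] at he
      obtain ⟨he1, he2, he3⟩ := he
      subst he3
      simp only at h1a h1b h2a h2b h3a h3b h3c h3d
      have hgetc : l.getD c 0 = B := by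
        rw [← he1, ← he2, List.getD_append_right _ _ _ _ (by simp)]
        simp
      have hlen : l.length = l1.length + (l2.length + 1) := by
        rw [← he1]; simp
      refine ⟨?_, hgetc⟩
      show IsCS A v d s l c u z y
      refine ⟨?_, ?_, ?_, ?_, ?_, ?_, ?_, h3b, h3c, h3d⟩
      · intro C hC
        rw [← he1, List.mem_append, List.mem_cons, List.mem_map, List.mem_map] at hC
        rcases hC with ⟨N, hNm, rfl⟩ | rfl | ⟨N, hNm, rfl⟩
        · refine ⟨hgH N, ?_⟩
          rw [hgR]
          exact (h1a N hNm).1.le.trans hBL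
        · exact ⟨hBH, hBL⟩
        · refine ⟨hgH N, ?_⟩
          rw [hgR]
          exact (h2a N hNm).2.1
      · rw [← he1, List.pairwise_append]
        refine ⟨?_, ?_, ?_⟩
        · rw [List.pairwise_map]
          refine h1b.imp ?_
          intro a b hab
          rwa [hgR, hgR]
        · rw [List.pairwise_cons]
          refine ⟨?_, ?_⟩
          · intro C hC
            obtain ⟨N, hNm, rfl⟩ := List.mem_map.1 hC
            rw [hgR]
            exact (h2a N hNm).1
          · rw [List.pairwise_map]
            refine h2b.imp ?_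
            intro a b hab
            rwa [hgR, hgR]
        · intro C hC C' hC'
          obtain ⟨N, hNm, rfl⟩ := List.mem_map.1 hC
          rw [hgR]
          have hNB : N < rows B := (h1a N hNm).1
          rw [List.mem_cons, List.mem_map] at hC'
          rcases hC' with rfl | ⟨N', hNm', rfl⟩
          · exact hNB
          · rw [hgR]
            exact hNB.trans (h2a N' hNm').1
      · omega
      · rw [hgetc]
        exact ⟨hBH, hBL, hBD⟩
      · intro t ht
        rw [hgetc]
        have htl : t < l1.length := by omega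
        have : l.getD t 0 = g (l1[t]) := by
          rw [← he1, List.getD_append _ _ _ _ (by simpa using htl),
            List.getD_eq_getElem _ _ (by simpa using htl), List.getElem_map]
        rw [this, fib_lt hN hP (4 * d) hBH (hgH _), hgR]
        exact (h1a _ (List.getElem_mem htl)).2
      · intro t ht htl
        rw [hgetc]
        have htl' : t - l1.length - 1 < l2.length := by omega
        have : l.getD t 0 = g (l2[t - l1.length - 1]) := by
          rw [← he1, List.getD_append_right _ _ _ _ (by simp; omega), List.length_map]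
          obtain ⟨k, hk⟩ : ∃ k, t - l1.length = k + 1 := ⟨t - l1.length - 1, by omega⟩
          have hk' : t - l1.length - 1 = k := by omega
          simp only [hk]
          rw [List.getD_cons_succ, List.getD_eq_getElem _ _ (by simp; omega), List.getElem_map]
          simp
        rw [this, fib_le hN hP (4 * d) hBH (hgH _), hgR]
        exact (h2a _ (List.getElem_mem htl')).2.2
      · rw [hgetc]
        exact h3a
  have hinj : Set.InjOn G (W ×ˢ (U ×ˢ T)) := by
    rintro ⟨l1, l2, t⟩ - ⟨l1', l2', t'⟩ - he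
    simp only [hG, Prod.mk.injEq] at he
    obtain ⟨he1, he2, he3⟩ := he
    obtain ⟨h1, h2⟩ := List.append_inj he1 (by simpa using he2)
    obtain ⟨-, h3⟩ := List.cons.inj h2
    rw [List.map_injective_iff.2 hgI h1, List.map_injective_iff.2 hgI h3, he3]
  rw [hX, Set.InjOn.ncard_image hinj, Set.ncard_prod, Set.ncard_prod, mul_assoc]

end Pool.Agent.LAT.H58
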